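import Pool.Agent.V7H71.SufIP.Nuc
import Pool.Agent.V7H71.SufIP.Comm
import Pool.Agent.V7H71.SufIP.MUF
import Pool.Agent.V7H71.SufIP.Weak

/-!
# A large class of semi-universally flexible loops that are universally flexible

Loops are given by `LoopStr` (multiplication, both divisions, identity). `SUF`, `Moufang` and
`Nuclear` are the usual notions. `LIP`, `RIP`, `LAlt`, `RAlt` are the one-sided inverse properties
and the one-sided alternative laws; the inverse property implies the first two. `NuclearClass` is the least class of loops that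
contains the Moufang loops and the commutative loops and is closed under extensions with kernel in
the nucleus, under subdirect products, and under the local operator (loops whose elements lie,
three at a time, in subloops of the class). It contains all locally nilpotent and all residually
nilpotent loops.
-/

namespace Pool.Agent.Results.MP_ca1f03_al.NuclearClassH71

open Pool.Agent.V7H71.UF

universe u

/-- The least class of loops containing the Moufang loops (`moufang`) and the commutative loops
(`comm`) and closed under `ext` (extensions whose kernel is contained in the nucleus), `resid`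
(subdirect products) and `loc` (any three elements lie in a subloop of the class). -/
inductive NuclearClass : {Q : Type u} → LoopStr Q → Prop
  | moufang {Q : Type u} {L : LoopStr Q} (h : L.Moufang) : NuclearClass L
  | comm {Q : Type u} {L : LoopStr Q} (h : ∀ x y, L.mul x y = L.mul y x) : NuclearClass L
  | ext {Q N : Type u} {L : LoopStr Q} {M : LoopStr N} (f : Q → N)
      (hom : ∀ x y, f (L.mul x y) = M.mul (f x) (f y)) (surj : Function.Surjective f)
      (ker : ∀ k, f k = M.one → L.Nuclear k) (h : NuclearClass M) : NuclearClass L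
  | resid {Q ι : Type u} {N : ι → Type u} {L : LoopStr Q} {M : ∀ i, LoopStr (N i)}
      (f : ∀ i, Q → N i) (hom : ∀ i x y, f i (L.mul x y) = (M i).mul (f i x) (f i y))
      (surj : ∀ i, Function.Surjective (f i)) (sep : ∀ x y, (∀ i, f i x = f i y) → x = y)
      (h : ∀ i, NuclearClass (M i)) : NuclearClass L
  | loc {Q : Type u} {N : Q → Q → Q → Type u} {L : LoopStr Q} {M : ∀ x y z, LoopStr (N x y z)}
      (f : ∀ x y z, N x y z → Q)
      (hom : ∀ x y z a b, f x y z ((M x y z).mul a b) = L.mul (f x y z a) (f x y z b))
      (inj : ∀ x y z, Function.Injective (f x y z))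
      (mem : ∀ x y z, ∃ a b c, f x y z a = x ∧ f x y z b = y ∧ f x y z c = z)
      (h : ∀ x y z, NuclearClass (M x y z)) : NuclearClass L

theorem map_isot {Q N : Type u} {L : LoopStr Q} {M : LoopStr N} {f : Q → N}
    (hom : LoopStr.Hom L M f) (a b x y : Q) :
    M.isot (f a) (f b) (f x) (f y) = f (L.isot a b x y) := by
  simp only [LoopStr.isot, hom.ldiv, hom.rdiv, hom _ _]

theorem map_SUF {Q N : Type u} {L : LoopStr Q} {M : LoopStr N} {f : Q → N}
    (hom : LoopStr.Hom L M f) (surj : Function.Surjective f) (h : L.SUF) : M.SUF := by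
  constructor
  · intro a x y
    obtain ⟨a, rfl⟩ := surj a
    obtain ⟨x, rfl⟩ := surj x
    obtain ⟨y, rfl⟩ := surj y
    rw [← hom.one]
    simp only [map_isot hom]
    rw [h.1]
  · intro a x y
    obtain ⟨a, rfl⟩ := surj a
    obtain ⟨x, rfl⟩ := surj x
    obtain ⟨y, rfl⟩ := surj y
    rw [← hom.one]
    simp only [map_isot hom]
    rw [h.2]

theorem map_IP {Q N : Type u} {L : LoopStr Q} {M : LoopStr N} {f : Q → N}
    (hom : LoopStr.Hom L M f) (surj : Function.Surjective f) (h : L.IP) : M.IP := by
  intro x
  obtain ⟨x, rfl⟩ := surj x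
  rw [← hom.one, ← hom.ldiv, ← hom.rdiv]
  refine ⟨congrArg f (h x).1, fun y => ?_, fun y => ?_⟩
  · obtain ⟨y, rfl⟩ := surj y
    rw [← hom.ldiv, ← hom, (h x).2.1 y]
  · obtain ⟨y, rfl⟩ := surj y
    rw [← hom.rdiv, ← hom, (h x).2.2 y]

theorem comap_SUF {Q N : Type u} {L : LoopStr Q} {M : LoopStr N} {f : N → Q}
    (hom : LoopStr.Hom M L f) (inj : Function.Injective f) (h : L.SUF) : M.SUF := by
  constructor
  · intro a x y
    apply inj
    simp only [← map_isot hom, hom.one]
    exact h.1 _ _ _
  · intro a x y
    apply inj
    simp only [← map_isot hom, hom.one]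
    exact h.2 _ _ _

theorem comap_IP {Q N : Type u} {L : LoopStr Q} {M : LoopStr N} {f : N → Q}
    (hom : LoopStr.Hom M L f) (inj : Function.Injective f) (h : L.IP) : M.IP := by
  intro x
  refine ⟨inj ?_, fun y => inj ?_, fun y => inj ?_⟩
  · rw [hom.ldiv, hom.rdiv, hom.one]
    exact (h _).1
  · rw [hom, hom.ldiv, hom.ldiv, hom.one]
    exact (h _).2.1 _
  · rw [hom, hom.ldiv, hom.rdiv, hom.one]
    exact (h _).2.2 _

theorem moufang_of_class {Q : Type u} (L : LoopStr Q) (cls : NuclearClass L) (suf : L.SUF)
    (ip : L.IP) : L.Moufang := by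
  induction cls with
  | moufang h => exact h
  | comm h => exact suf.moufang_of_comm ip h
  | ext f hom surj ker _ ih =>
    exact LoopStr.Hom.moufang (φ := f) hom ker ip suf
      (ih (map_SUF hom surj suf) (map_IP hom surj ip))
  | resid f hom surj sep _ ih =>
    intro x y z
    refine sep _ _ fun i => ?_
    rw [hom, hom, hom, hom, hom, hom]
    exact ih i (map_SUF (hom i) (surj i) suf) (map_IP (hom i) (surj i) ip) _ _ _
  | loc f hom inj mem _ ih =>
    intro x y z
    obtain ⟨a, b, c, ha, hb, hc⟩ := mem x y z
    have := congrArg (f x y z) (ih x y z (comap_SUF (hom x y z) (inj x y z) suf)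
      (comap_IP (hom x y z) (inj x y z) ip) a b c)
    simpa only [hom, ha, hb, hc] using this

/-- Universally flexible: every isotope `x ∘ y = (x / a) (b \ y)` is flexible. -/
def UnivFlex {Q : Type u} (L : LoopStr Q) : Prop :=
  ∀ a b x y : Q, L.isot a b x (L.isot a b y x) = L.isot a b (L.isot a b x y) x

theorem univFlex_of_moufang {Q : Type u} {L : LoopStr Q} (h : L.Moufang) : UnivFlex L := by
  intro a b x y
  have hI := h.ip
  have k := h.iso_aux b (L.ldiv a L.one) (L.ldiv b y) (L.ldiv b x)
  rw [L.mul_ldiv, L.mul_ldiv] at k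
  simp only [LoopStr.isot]
  rw [(hI b).2.1 (L.mul (L.rdiv y a) (L.ldiv b x)), (hI a).2.2 x, (hI a).2.2 y,
    (hI a).2.2 (L.mul (L.mul x (L.ldiv a L.one)) (L.ldiv b y))]
  exact k

/-- Every semi-universally flexible loop in `NuclearClass` that satisfies at least one of the left
inverse property, the right inverse property, the left alternative law and the right alternative
law is universally flexible, and indeed Moufang. -/
theorem result {Q : Type u} (L : LoopStr Q) (cls : NuclearClass L) (suf : L.SUF)
    (weak : L.LIP ∨ L.RIP ∨ L.LAlt ∨ L.RAlt) : UnivFlex L ∧ L.Moufang :=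
  have h := moufang_of_class L cls suf (suf.ip_of_weak weak)
  ⟨univFlex_of_moufang h, h⟩

end Pool.Agent.Results.MP_ca1f03_al.NuclearClassH71
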